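import Mathlib
import Pool.Agent.Helper278.RGStmt
import Pool.Agent.Helper278.RGFin

set_option autoImplicit false

namespace Pool.Agent.Results.MP_b7fcbd_an.NoMatrix

open Pool.Agent.Helper278 Pool.Agent.Helper278.RG

/-- There is a II₁ factor `M` such that for every nonprincipal ultrafilter `U` on `ℕ` there is no
unital star homomorphism from `M₂(ℂ) ⊗ M = M₂(M)` to the tracial ultrapower `M^U`. -/
theorem result :
    ∃ (H : Type) (_ : NormedAddCommGroup H) (_ : InnerProductSpace ℂ H) (_ : CompleteSpace H)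
      (M : VonNeumannAlgebra H) (τ : Elt M → ℂ),
      IsIIOneFactor M τ ∧ UltrapowersExist (M := Elt M) τ ∧ NoMatrixEmbedding (M := Elt M) τ := by
  have b : HilbertBasis G0 ℂ (lp (fun _ : G0 => ℂ) 2) := default
  refine ⟨lp (fun _ : G0 => ℂ) 2, inferInstance, inferInstance, inferInstance, LK b, (TL b).τ,
    factor0 b, fun U _ => exists_ultrapower (TL b) U, ?_⟩
  exact noMatrix_of_homsUnital (TL b) fun U hU Q _ _ _ _ π σ hπ f hf => hom_unital b hU hπ f hf

end Pool.Agent.Results.MP_b7fcbd_an.NoMatrix
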